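import Mathlib

/-!
MP_aaa807_co: two-colourings with the fewest monochromatic edges of graphs of maximum degree at most 4,
prescribed sides of the vertices with two neighbours of their own colour.
-/

set_option autoImplicit false
set_option linter.unusedSectionVars false

namespace Pool.Agent.H43.CH2

open Finset
open scoped Classical

variable {V : Type} [Fintype V]

/-- the number of neighbours of `v` which have the colour of `v` -/
noncomputable def same (G : SimpleGraph V) (c : V → Bool) (v : V) : ℕ :=
  (univ.filter (fun w => G.Adj v w ∧ c w = c v)).card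

/-- the number of neighbours of `v` which do not have the colour of `v` -/
noncomputable def opp (G : SimpleGraph V) (c : V → Bool) (v : V) : ℕ :=
  (univ.filter (fun w => G.Adj v w ∧ c w ≠ c v)).card

/-- twice the number of monochromatic edges -/
noncomputable def mono (G : SimpleGraph V) (c : V → Bool) : ℕ := ∑ v, same G c v

/-- `c` has the fewest monochromatic edges -/
def MinMono (G : SimpleGraph V) (c : V → Bool) : Prop := ∀ c' : V → Bool, mono G c ≤ mono G c'

/-- the colour of `x` is changed -/
noncomputable def flip (c : V → Bool) (x : V) : V → Bool := Function.update c x (!(c x))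

variable {G : SimpleGraph V} {c : V → Bool} {x v w : V}

theorem flip_self : flip c x x = !(c x) := by simp [flip]

theorem flip_ne (h : v ≠ x) : flip c x v = c v := by simp [flip, h]

theorem same_add_opp (G : SimpleGraph V) (c : V → Bool) (v : V) :
    same G c v + opp G c v = (univ.filter (fun w => G.Adj v w)).card := by
  unfold same opp
  rw [← card_union_of_disjoint]
  · congr 1
    ext w
    simp only [mem_union, mem_filter, mem_univ, true_and]
    tauto
  · rw [disjoint_left]
    intro w h1 h2
    simp only [mem_filter, mem_univ, true_and] at h1 h2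
    exact h2.2 h1.2

theorem same_flip_self (G : SimpleGraph V) (c : V → Bool) (x : V) :
    same G (flip c x) x = opp G c x := by
  unfold same opp
  congr 1
  ext w
  simp only [mem_filter, mem_univ, true_and]
  constructor
  · rintro ⟨h1, h2⟩
    have hne : w ≠ x := fun h => G.loopless.irrefl x (h ▸ h1)
    rw [flip_ne hne, flip_self] at h2
    refine ⟨h1, ?_⟩
    rw [h2]
    cases c x <;> simp
  · rintro ⟨h1, h2⟩
    have hne : w ≠ x := fun h => G.loopless.irrefl x (h ▸ h1)
    rw [flip_ne hne, flip_self]
    refine ⟨h1, ?_⟩
    revert h2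
    cases c w <;> cases c x <;> simp

theorem opp_flip_self (G : SimpleGraph V) (c : V → Bool) (x : V) :
    opp G (flip c x) x = same G c x := by
  have h1 := same_add_opp G c x
  have h2 := same_add_opp G (flip c x) x
  have h3 := same_flip_self G c x
  omega

/-- the effect of a flip on the other vertices -/
theorem same_flip_other (h : v ≠ x) :
    same G (flip c x) v + (if G.Adj x v ∧ c v = c x then 1 else 0) =
      same G c v + (if G.Adj x v ∧ c v ≠ c x then 1 else 0) := by
  have key : ∀ d : V → Bool, (∀ w, w ≠ x → d w = c w) →
      same G d v = (univ.filter (fun w => w ≠ x ∧ G.Adj v w ∧ c w = c v)).card +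
        (if G.Adj x v ∧ d x = c v then 1 else 0) := by
    intro d hd
    unfold same
    have h1 : univ.filter (fun w => G.Adj v w ∧ d w = d v) =
        univ.filter (fun w => w ≠ x ∧ G.Adj v w ∧ c w = c v) ∪
          (if G.Adj x v ∧ d x = c v then {x} else ∅) := by
      ext w
      simp only [mem_union, mem_filter, mem_univ, true_and]
      rw [hd v h]
      by_cases hw : w = x
      · subst hw
        by_cases hc : G.Adj w v ∧ d w = c v
        · rw [if_pos hc]
          simp [hc.1.symm, hc.2]
        · rw [if_neg hc]
          simp only [ne_eq, not_true_eq_false, false_and, notMem_empty, or_self, iff_false]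
          rintro ⟨h3, h4⟩
          exact hc ⟨h3.symm, h4⟩
      · rw [hd w hw]
        split_ifs <;> simp [hw]
    rw [h1, card_union_of_disjoint]
    · congr 1
      split_ifs <;> simp
    · rw [disjoint_left]
      intro w hw1 hw2
      simp only [mem_filter, mem_univ, true_and] at hw1
      split_ifs at hw2
      · exact hw1.1 (by simpa using hw2)
      · simp at hw2
  have e1 := key c (fun w _ => rfl)
  have e2 := key (flip c x) (fun w hw => flip_ne hw)
  rw [flip_self] at e2
  rw [e1, e2]
  by_cases ha : G.Adj x v
  · cases hcx : c x <;> cases hcv : c v <;> simp [ha]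
  · simp [ha]

theorem mono_flip (G : SimpleGraph V) (c : V → Bool) (x : V) :
    mono G (flip c x) + 2 * same G c x = mono G c + 2 * opp G c x := by
  have h1 : ∑ v, (same G (flip c x) v + (if G.Adj x v ∧ c v = c x then 1 else 0)) + same G c x =
      ∑ v, (same G c v + (if G.Adj x v ∧ c v ≠ c x then 1 else 0)) + opp G c x := by
    rw [← add_sum_erase univ _ (mem_univ x), ← add_sum_erase univ
      (fun v => same G c v + (if G.Adj x v ∧ c v ≠ c x then 1 else 0)) (mem_univ x)]
    have h2 : ∑ v ∈ univ.erase x,
        (same G (flip c x) v + (if G.Adj x v ∧ c v = c x then 1 else 0)) =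
        ∑ v ∈ univ.erase x, (same G c v + (if G.Adj x v ∧ c v ≠ c x then 1 else 0)) :=
      sum_congr rfl (fun v hv => same_flip_other (ne_of_mem_erase hv))
    rw [h2, same_flip_self]
    simp
    omega
  rw [sum_add_distrib, sum_add_distrib] at h1
  have h3 : ∑ v : V, (if G.Adj x v ∧ c v = c x then 1 else 0) = same G c x := by
    unfold same
    rw [card_filter]
  have h4 : ∑ v : V, (if G.Adj x v ∧ c v ≠ c x then 1 else 0) = opp G c x := by
    unfold opp
    rw [card_filter]
  rw [h3, h4] at h1
  unfold mono
  omega

theorem same_le_two (hd : ∀ v, (univ.filter (fun w => G.Adj v w)).card ≤ 4) (hc : MinMono G c)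
    (v : V) : same G c v ≤ 2 := by
  have h1 := mono_flip G c v
  have h2 := same_add_opp G c v
  have h3 := hd v
  have h4 := hc (flip c v)
  omega

theorem minMono_flip (hd : ∀ v, (univ.filter (fun w => G.Adj v w)).card ≤ 4) (hc : MinMono G c)
    (hx : same G c x = 2) : MinMono G (flip c x) := by
  intro c'
  have h1 := mono_flip G c x
  have h2 := same_add_opp G c x
  have h3 := hd x
  have h4 := hc c'
  omega

theorem same_le_one_of_degree (hc : MinMono G c)
    (hv : (univ.filter (fun w => G.Adj v w)).card ≤ 3) : same G c v ≤ 1 := by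
  have h1 := mono_flip G c v
  have h2 := same_add_opp G c v
  have h4 := hc (flip c v)
  omega

theorem exists_minMono (G : SimpleGraph V) : ∃ c : V → Bool, MinMono G c := by
  obtain ⟨c, -, hc⟩ := exists_min_image (univ : Finset (V → Bool)) (mono G) ⟨fun _ => true, mem_univ _⟩
  exact ⟨c, fun c' => hc c' (mem_univ _)⟩

/-! ### closed sets -/

/-- `T` contains all neighbours of its vertices which have the same colour -/
def Closed (G : SimpleGraph V) (c : V → Bool) (T : Finset V) : Prop :=
  ∀ x ∈ T, ∀ y, G.Adj x y → c y = c x → y ∈ T

theorem walk_closed {T : Finset V} (hT : Closed G c T) {a : V} (ha : a ∈ T) (hav : c a = c v) :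
    ∀ {b : V} (p : G.Walk a b), (∀ x ∈ p.support, c x = c v) → b ∈ T := by
  intro b p
  induction p with
  | nil => intro _; exact ha
  | cons h q ih =>
    rename_i a' b' c'
    intro hs
    have h1 : c b' = c v := hs b' (by simp)
    have h2 : b' ∈ T := hT _ ha _ h (by rw [h1, hav])
    exact ih h2 h1 (fun x hx => hs x (by simp [hx]))

theorem card_le_of_closed {T : Finset V} {k : ℕ} (hT : Closed G c T) (hv : v ∈ T)
    (hk : T.card ≤ k) : Nat.card {w // ∃ p : G.Walk v w, ∀ x ∈ p.support, c x = c v} ≤ k := by
  refine le_trans ?_ hk
  have h : ∀ w : {w // ∃ p : G.Walk v w, ∀ x ∈ p.support, c x = c v}, w.1 ∈ T := by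
    rintro ⟨w, p, hp⟩
    exact walk_closed hT hv rfl p hp
  let g : {w // ∃ p : G.Walk v w, ∀ x ∈ p.support, c x = c v} → T := fun w => ⟨w.1, h w⟩
  have hg : Function.Injective g := by
    intro a b hab
    apply Subtype.ext
    exact congrArg (fun z : T => z.1) hab
  have := Nat.card_le_card_of_injective g hg
  simpa using this

/-- two neighbours of the own colour, and no third one -/
theorem two_nb (h : same G c v = 2) : ∃ a b, a ≠ b ∧ G.Adj v a ∧ G.Adj v b ∧ c a = c v ∧ c b = c v ∧
    ∀ y, G.Adj v y → c y = c v → y = a ∨ y = b := by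
  obtain ⟨a, b, hab, hs⟩ := card_eq_two.1 h
  have ha : a ∈ univ.filter (fun w => G.Adj v w ∧ c w = c v) := by rw [hs]; simp
  have hb : b ∈ univ.filter (fun w => G.Adj v w ∧ c w = c v) := by rw [hs]; simp
  simp only [mem_filter, mem_univ, true_and] at ha hb
  refine ⟨a, b, hab, ha.1, hb.1, ha.2, hb.2, fun y hy hcy => ?_⟩
  have : y ∈ univ.filter (fun w => G.Adj v w ∧ c w = c v) := by simp [hy, hcy]
  rw [hs] at this
  simpa using this

/-- at most one neighbour of the own colour -/
theorem one_nb (h : same G c v ≤ 1) {a y : V} (ha : G.Adj v a) (hca : c a = c v) (hy : G.Adj v y)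
    (hcy : c y = c v) : y = a := by
  refine card_le_one.1 h y ?_ a ?_ <;> simp [*]

/-- at most two neighbours of the own colour -/
theorem two_nb' (h : same G c v ≤ 2) {a b y : V} (hab : a ≠ b) (ha : G.Adj v a) (hca : c a = c v)
    (hb : G.Adj v b) (hcb : c b = c v) (hy : G.Adj v y) (hcy : c y = c v) : y = a ∨ y = b := by
  by_contra hcon
  push Not at hcon
  have h1 : ({a, b, y} : Finset V) ⊆ univ.filter (fun w => G.Adj v w ∧ c w = c v) := by
    intro z hz
    simp only [mem_insert, mem_singleton] at hz
    rcases hz with rfl | rfl | rfl <;> simp [*]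
  have h2 := card_le_card h1
  have h3 : ({a, b, y} : Finset V).card = 3 := by
    rw [card_insert_of_notMem (by simp [hab, Ne.symm hcon.1]), card_pair (Ne.symm hcon.2)]
  unfold same at h
  omega

end Pool.Agent.H43.CH2
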