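import Pool.Agent.H43.CH2.Small

/-!
The criterion: a family of two-colourings with the fewest monochromatic edges, closed under changing the
colour of vertices with two neighbours of their own colour; prescribed sides.
-/

set_option autoImplicit false
set_option linter.unusedSectionVars false

namespace Pool.Agent.H43.CH2

open Finset
open scoped Classical

variable {V : Type} [Fintype V]

/-- `F` is a nonempty set of two-colourings with the fewest monochromatic edges; with `c` it contains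
every colouring which arises from `c` by changing the colour of one vertex that has exactly two
neighbours of its own colour -/
def Family (G : SimpleGraph V) (F : Set (V → Bool)) : Prop :=
  F.Nonempty ∧ (∀ c ∈ F, MinMono G c) ∧ ∀ c ∈ F, ∀ x, same G c x = 2 → flip c x ∈ F

/-- `v` has at most one neighbour of its own colour in all colourings of `F` -/
def Rigid (G : SimpleGraph V) (F : Set (V → Bool)) (v : V) : Prop := ∀ c ∈ F, same G c v ≤ 1

/-- the vertex `v` is not at its prescribed side: a vertex of `N` wants a rigid neighbour of its own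
colour, the other vertices `v` want the colour `f v` -/
def Bad (G : SimpleGraph V) (F : Set (V → Bool)) (N : Set V) (f c : V → Bool) (v : V) : Prop :=
  ¬ Rigid G F v ∧ ((v ∈ N ∧ ∀ w, G.Adj v w → Rigid G F w → c w ≠ c v) ∨ (v ∉ N ∧ c v ≠ f v))

theorem exists_good (G : SimpleGraph V) {F : Set (V → Bool)} (hF : Family G F) {N : Set V}
    (hN : ∀ v ∈ N, ∃ w, G.Adj v w ∧ Rigid G F w) (f : V → Bool) :
    ∃ c ∈ F, ∀ x, same G c x = 2 → ¬ Bad G F N f c x := by
  obtain ⟨hne, -, hcl⟩ := hF
  obtain ⟨c, hcF, hc⟩ := (Set.toFinite F).exists_minimalFor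
    (fun c => (univ.filter (fun v => Bad G F N f c v)).card) F hne
  refine ⟨c, hcF, fun x hx hbad => ?_⟩
  have hxr : ¬ Rigid G F x := hbad.1
  have h1 : univ.filter (fun v => Bad G F N f (flip c x) v) ⊂
      univ.filter (fun v => Bad G F N f c v) := by
    rw [ssubset_iff_of_subset]
    · refine ⟨x, by simp [hbad], ?_⟩
      simp only [mem_filter, mem_univ, true_and]
      rintro ⟨-, ⟨hxN, h2⟩ | ⟨hxN, h2⟩⟩
      · obtain ⟨w, hxw, hw⟩ := hN x hxN
        rcases hbad.2 with ⟨-, h3⟩ | ⟨h3, -⟩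
        · have h4 := h3 w hxw hw
          have h5 := h2 w hxw hw
          rw [flip_self, flip_ne (by rintro rfl; exact hxr hw)] at h5
          revert h4 h5
          cases c w <;> cases c x <;> simp
        · exact h3 hxN
      · rcases hbad.2 with ⟨h3, -⟩ | ⟨-, h3⟩
        · exact hxN h3
        · rw [flip_self] at h2
          revert h2 h3
          cases c x <;> cases f x <;> simp
    · intro v hv
      simp only [mem_filter, mem_univ, true_and] at hv ⊢
      by_cases hvx : v = x
      · rw [hvx]; exact hbad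
      · refine ⟨hv.1, ?_⟩
        rcases hv.2 with ⟨h2, h3⟩ | ⟨h2, h3⟩
        · refine Or.inl ⟨h2, fun w hw hr => ?_⟩
          have h4 := h3 w hw hr
          rwa [flip_ne hvx, flip_ne (by rintro rfl; exact hxr hr)] at h4
        · refine Or.inr ⟨h2, ?_⟩
          rwa [flip_ne hvx] at h3
  have h2 := card_lt_card h1
  have h3 := hc (hcl c hcF x hx) (le_of_lt h2)
  exact absurd h3 (not_le_of_gt h2)

/-- the graph of the monochromatic edges -/
def monoGraph (G : SimpleGraph V) (c : V → Bool) : SimpleGraph V where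
  Adj x y := G.Adj x y ∧ c x = c y
  symm := ⟨fun _ _ h => ⟨h.1.symm, h.2.symm⟩⟩
  loopless := ⟨fun x h => G.loopless.irrefl x h.1⟩

theorem dH_mono (G : SimpleGraph V) (c : V → Bool) (v : V) : dH (monoGraph G c) v = same G c v := by
  unfold dH same
  congr 1
  ext w
  simp only [mem_filter, mem_univ, true_and, monoGraph]
  constructor
  · rintro ⟨h1, h2⟩; exact ⟨h1, h2.symm⟩
  · rintro ⟨h1, h2⟩; exact ⟨h1, h2.symm⟩

theorem cl_closed {G : SimpleGraph V} {c : V → Bool} {T : Finset V} (h : Cl (monoGraph G c) T) :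
    Closed G c T := fun x hx y hxy hc => h x hx y ⟨hxy, hc.symm⟩

section

variable {G : SimpleGraph V} {F : Set (V → Bool)} {N : Set V} {f c : V → Bool}

/-- a token both of whose neighbours of its own colour are tokens is not in `N` and has its
prescribed colour -/
theorem deep (h2 : ∀ v, same G c v ≤ 2) (hcF : c ∈ F)
    (hgood : ∀ x, same G c x = 2 → ¬ Bad G F N f c x) {a x y : V}
    (hax : (monoGraph G c).Adj a x) (hxy : (monoGraph G c).Adj x y) (hay : a ≠ y)
    (ha : same G c a = 2) (hx : same G c x = 2) (hy : same G c y = 2) : x ∉ N ∧ c x = f x := by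
  have hr : ∀ v, same G c v = 2 → ¬ Rigid G F v := fun v hv h => by
    have := h c hcF
    omega
  have hb := hgood x hx
  unfold Bad at hb
  have hxN : x ∉ N := by
    intro hxN
    apply hb
    refine ⟨hr x hx, Or.inl ⟨hxN, fun w hw hrw hcw => ?_⟩⟩
    rcases dH_two_of (by rw [dH_mono]; exact h2 x) hay hax.symm hxy w ⟨hw, hcw.symm⟩ with h | h
    · exact hr a ha (h ▸ hrw)
    · exact hr y hy (h ▸ hrw)
  refine ⟨hxN, ?_⟩
  by_contra hcf
  exact hb ⟨hr x hx, Or.inr ⟨hxN, hcf⟩⟩

theorem side (hcF : c ∈ F) (hgood : ∀ x, same G c x = 2 → ¬ Bad G F N f c x) {a x : V}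
    (hax : c a = c x) (ha : same G c a = 2) (hx : c x = f x) : a ∈ N ∨ f a = f x := by
  by_contra hcon
  push Not at hcon
  refine hgood a ha ⟨fun h => by have := h c hcF; omega, Or.inr ⟨hcon.1, ?_⟩⟩
  intro h
  exact hcon.2 (by rw [← h, hax, hx])

end

/-- The criterion for 5. -/
theorem criterion5 (G : SimpleGraph V) (hd : ∀ v, (univ.filter (fun w => G.Adj v w)).card ≤ 4)
    {F : Set (V → Bool)} (hF : Family G F) {N : Set V}
    (hN : ∀ v ∈ N, ∃ w, G.Adj v w ∧ Rigid G F w) (f : V → Bool)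
    (hno : ∀ a x y b, G.Adj a x → G.Adj x y → G.Adj y b → a ≠ y → x ≠ b → a ≠ b → ¬ G.Adj a y →
      ¬ G.Adj x b → ¬ G.Adj a b → ¬ Rigid G F a → ¬ Rigid G F x → ¬ Rigid G F y →
      ¬ Rigid G F b → x ∉ N → y ∉ N → f x = f y → (a ∈ N ∨ f a = f x) →
      (b ∈ N ∨ f b = f x) → False) :
    ∃ c ∈ F, ∀ v, Nat.card {w // ∃ p : G.Walk v w, ∀ x ∈ p.support, c x = c v} ≤ 5 := by
  obtain ⟨c, hcF, hgood⟩ := exists_good G hF hN f
  have hmin := hF.2.1 c hcF
  have h2 : ∀ v, same G c v ≤ 2 := same_le_two hd hmin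
  refine ⟨c, hcF, fun v => ?_⟩
  have hr : ∀ v, same G c v = 2 → ¬ Rigid G F v := fun v hv h => by
    have := h c hcF
    omega
  have hfour : ¬ Four (monoGraph G c) := by
    rintro ⟨a, x, y, b, hax, hxy, hyb, hay, hxb, hab, nay, nxb, nab, ha, hx, hy, hb⟩
    rw [dH_mono] at ha hx hy hb
    obtain ⟨hxN, hfx⟩ := deep h2 hcF hgood hax hxy hay ha hx hy
    obtain ⟨hyN, hfy⟩ := deep h2 hcF hgood hxy hyb hxb hx hy hb
    have e1 : c a = c x := hax.2
    have e2 : c x = c y := hxy.2
    have e3 : c y = c b := hyb.2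
    refine hno a x y b hax.1 hxy.1 hyb.1 hay hxb hab ?_ ?_ ?_ (hr a ha) (hr x hx) (hr y hy)
      (hr b hb) hxN hyN ?_ ?_ ?_
    · exact fun h => nay ⟨h, by rw [e1, e2]⟩
    · exact fun h => nxb ⟨h, by rw [e2, e3]⟩
    · exact fun h => nab ⟨h, by rw [e1, e2, e3]⟩
    · rw [← hfx, ← hfy, e2]
    · exact side hcF hgood e1 ha hfx
    · exact side hcF hgood (by rw [e2, e3]) hb hfx
  obtain ⟨T, hvT, hT, hcard⟩ := comp5 (fun v => by rw [dH_mono]; exact h2 v) hfour v
  exact card_le_of_closed (cl_closed hT) hvT hcard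

/-- The criterion for 4. -/
theorem criterion4 (G : SimpleGraph V) (hd : ∀ v, (univ.filter (fun w => G.Adj v w)).card ≤ 4)
    {F : Set (V → Bool)} (hF : Family G F) {N : Set V}
    (hN : ∀ v ∈ N, ∃ w, G.Adj v w ∧ Rigid G F w) (f : V → Bool)
    (hno : ∀ a x b, G.Adj a x → G.Adj x b → a ≠ b → ¬ G.Adj a b →
      ¬ Rigid G F a → ¬ Rigid G F x → ¬ Rigid G F b → x ∉ N → (a ∈ N ∨ f a = f x) →
      (b ∈ N ∨ f b = f x) → False) :
    ∃ c ∈ F, ∀ v, Nat.card {w // ∃ p : G.Walk v w, ∀ x ∈ p.support, c x = c v} ≤ 4 := by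
  obtain ⟨c, hcF, hgood⟩ := exists_good G hF hN f
  have hmin := hF.2.1 c hcF
  have h2 : ∀ v, same G c v ≤ 2 := same_le_two hd hmin
  refine ⟨c, hcF, fun v => ?_⟩
  have hr : ∀ v, same G c v = 2 → ¬ Rigid G F v := fun v hv h => by
    have := h c hcF
    omega
  obtain ⟨T, hvT, hT, hcard⟩ := comp4 (H := monoGraph G c) (fun v => by rw [dH_mono]; exact h2 v)
    (fun a x b hax hxb hab nab ha hx hb => by
      rw [dH_mono] at ha hx hb
      obtain ⟨hxN, hfx⟩ := deep h2 hcF hgood hax hxb hab ha hx hb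
      have e1 : c a = c x := hax.2
      have e2 : c x = c b := hxb.2
      refine hno a x b hax.1 hxb.1 hab ?_ (hr a ha) (hr x hx) (hr b hb) hxN ?_ ?_
      · exact fun h => nab ⟨h, by rw [e1, e2]⟩
      · exact side hcF hgood e1 ha hfx
      · exact side hcF hgood e2.symm hb hfx) v
  exact card_le_of_closed (cl_closed hT) hvT hcard

/-- all two-colourings with the fewest monochromatic edges -/
theorem family_all (G : SimpleGraph V) (hd : ∀ v, (univ.filter (fun w => G.Adj v w)).card ≤ 4) :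
    Family G {c | MinMono G c} := by
  obtain ⟨c, hc⟩ := exists_minMono G
  exact ⟨⟨c, hc⟩, fun c hc => hc, fun c hc x hx => minMono_flip hd hc hx⟩

/-- vertices of degree at most 3 are rigid in every family -/
theorem rigid_of_degree (G : SimpleGraph V) {F : Set (V → Bool)} (hF : Family G F) {v : V}
    (hv : (univ.filter (fun w => G.Adj v w)).card ≤ 3) : Rigid G F v :=
  fun c hc => same_le_one_of_degree (hF.2.1 c hc) hv

end Pool.Agent.H43.CH2
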