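import Pool.Agent.H43.CH2.Core

/-!
A graph with ten vertices: maximum degree 4, every vertex of degree 4 has a neighbour of degree 3, and
every two-colouring has a chromon with at least four vertices.
-/

set_option autoImplicit false

namespace Pool.Agent.H43.CH2

/-- the edges of the example -/
def exE : List (Fin 10 × Fin 10) :=
  [(0, 2), (0, 6), (0, 7), (1, 3), (1, 4), (1, 6), (1, 8), (2, 6), (2, 8), (2, 9), (3, 5), (3, 6), (3, 9), (4, 7), (4, 8), (5, 7), (5, 9), (8, 9)]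

/-- adjacency in the example -/
def exAdj (a b : Fin 10) : Bool := exE.contains (a, b) || exE.contains (b, a)

/-- the example -/
def exG : SimpleGraph (Fin 10) where
  Adj a b := exAdj a b = true
  symm := ⟨by decide⟩
  loopless := ⟨by decide⟩

instance : DecidableRel exG.Adj := fun a b => inferInstanceAs (Decidable (exAdj a b = true))

/-- connected quadruples -/
def exL : List (Fin 10 × Fin 10 × Fin 10 × Fin 10) :=
  [(1, 3, 8, 9), (1, 6, 8, 9), (0, 6, 1, 7), (2, 8, 4, 7), (1, 3, 9, 2), (0, 6, 1, 8), (4, 8, 9, 5), (0, 2, 9, 5), (1, 6, 2, 9), (1, 3, 8, 2), (4, 7, 8, 9), (0, 2, 7, 9), (1, 3, 4, 9), (0, 2, 9, 3), (5, 7, 9, 8), (2, 9, 5, 7), (0, 2, 8, 1), (2, 6, 9, 5), (3, 6, 9, 8), (3, 9, 8, 4), (1, 4, 6, 7), (1, 3, 5, 8), (0, 6, 3, 9), (1, 6, 2, 8), (1, 8, 9, 5), (1, 4, 6, 2), (0, 2, 7, 8), (1, 3, 4, 7), (2, 6, 3, 5), (2, 6, 3, 8), (2, 6, 8, 4), (2, 6, 3,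 9), (1, 3, 4, 5), (0, 6, 1, 4), (1, 3, 5, 7), (0, 6, 3, 5), (0, 2, 8, 4), (0, 6, 3, 7), (3, 5, 6, 7)]

/-- all four equal -/
def q4 (a b c d : Bool) : Bool := (a && b && c && d) || !(a || b || c || d)

set_option maxRecDepth 100000 in
theorem ex_key : ∀ b0 b1 b2 b3 b4 b5 b6 b7 b8 b9 : Bool,
    (q4 b1 b3 b8 b9 || (q4 b1 b6 b8 b9 || (q4 b0 b6 b1 b7 || (q4 b2 b8 b4 b7 || (q4 b1 b3 b9 b2 || (q4 b0 b6 b1 b8 || (q4 b4 b8 b9 b5 || (q4 b0 b2 b9 b5 || (q4 b1 b6 b2 b9 || (q4 b1 b3 b8 b2 || (q4 b4 b7 b8 b9 || (q4 b0 b2 b7 b9 || (q4 b1 b3 b4 b9 || (q4 b0 b2 b9 b3 || (q4 b5 b7 b9 b8 || (q4 b2 b9 b5 b7 || (q4 b0 b2 b8 b1 || (q4 b2 b6 b9 b5 || (q4 b3 b6 b9 b8 || (q4 b3 b9 b8 b4 || (q4 b1 b4 b6 b7 || (q4 b1 b3 b5 b8 || (q4 b0 b6 b3 b9 || (q4 b1 b6 b2 b8 || (q4 b1 b8 b9 b5 || (q4 b1 b4 b6 b2 || (q4 b0 b2 b7 b8 || (q4 b1 b3 b4 b7 || (q4 b2 b6 b3 b5 || (q4 b2 b6 b3 b8 || (q4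 b2 b6 b8 b4 || (q4 b2 b6 b3 b9 || (q4 b1 b3 b4 b5 || (q4 b0 b6 b1 b4 || (q4 b1 b3 b5 b7 || (q4 b0 b6 b3 b5 || (q4 b0 b2 b8 b4 || (q4 b0 b6 b3 b7 || (q4 b3 b5 b6 b7 || false))))))))))))))))))))))))))))))))))))))) = true := by
  decide

theorem ex_deg : ∀ v, exG.degree v ≤ 4 := by decide

theorem ex_low : ∀ v, exG.degree v = 4 → ∃ w, exG.Adj v w ∧ exG.degree w ≤ 3 := by decide

theorem exL_ok : ∀ q ∈ exL, q.1 ≠ q.2.1 ∧ q.1 ≠ q.2.2.1 ∧ q.1 ≠ q.2.2.2 ∧ q.2.1 ≠ q.2.2.1 ∧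
    q.2.1 ≠ q.2.2.2 ∧ q.2.2.1 ≠ q.2.2.2 ∧ exG.Adj q.1 q.2.1 ∧
    (exG.Adj q.1 q.2.2.1 ∨ exG.Adj q.2.1 q.2.2.1) ∧
    (exG.Adj q.1 q.2.2.2 ∨ exG.Adj q.2.1 q.2.2.2 ∨ exG.Adj q.2.2.1 q.2.2.2) := by decide

theorem q4_spec {a b c d : Bool} (h : q4 a b c d = true) : b = a ∧ c = a ∧ d = a := by
  revert h
  cases a <;> cases b <;> cases c <;> cases d <;> simp [q4]

theorem reach_step {V : Type} {G : SimpleGraph V} {c : V → Bool} {v a b : V}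
    (h : ∃ p : G.Walk v a, ∀ x ∈ p.support, c x = c v) (hab : G.Adj a b) (hb : c b = c v) :
    ∃ p : G.Walk v b, ∀ x ∈ p.support, c x = c v := by
  obtain ⟨p, hp⟩ := h
  refine ⟨p.concat hab, fun x hx => ?_⟩
  rw [SimpleGraph.Walk.support_concat] at hx
  rcases (by simpa using hx : x ∈ p.support ∨ x = b) with h1 | h1
  · exact hp x h1
  · rw [h1]; exact hb

theorem ex_not3 (c : Fin 10 → Bool) : ∃ v,
    4 ≤ Nat.card {w // ∃ p : exG.Walk v w, ∀ x ∈ p.support, c x = c v} := by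
  have hk : (exL.any fun q => q4 (c q.1) (c q.2.1) (c q.2.2.1) (c q.2.2.2)) = true :=
    ex_key (c 0) (c 1) (c 2) (c 3) (c 4) (c 5) (c 6) (c 7) (c 8) (c 9)
  obtain ⟨q, hq, h4⟩ := List.any_eq_true.1 hk
  obtain ⟨h01, h02, h03, h12, h13, h23, a1, a2, a3⟩ := exL_ok q hq
  obtain ⟨c1, c2, c3⟩ := q4_spec h4
  refine ⟨q.1, ?_⟩
  have r0 : ∃ p : exG.Walk q.1 q.1, ∀ x ∈ p.support, c x = c q.1 :=
    ⟨SimpleGraph.Walk.nil, fun x hx => by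
      rw [SimpleGraph.Walk.support_nil, List.mem_singleton] at hx; rw [hx]⟩
  have r1 := reach_step r0 a1 c1
  have r2 : ∃ p : exG.Walk q.1 q.2.2.1, ∀ x ∈ p.support, c x = c q.1 := by
    rcases a2 with h | h
    · exact reach_step r0 h c2
    · exact reach_step r1 h c2
  have r3 : ∃ p : exG.Walk q.1 q.2.2.2, ∀ x ∈ p.support, c x = c q.1 := by
    rcases a3 with h | h | h
    · exact reach_step r0 h c3
    · exact reach_step r1 h c3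
    · exact reach_step r2 h c3
  let g : Fin 4 → {w // ∃ p : exG.Walk q.1 w, ∀ x ∈ p.support, c x = c q.1} :=
    ![⟨q.1, r0⟩, ⟨q.2.1, r1⟩, ⟨q.2.2.1, r2⟩, ⟨q.2.2.2, r3⟩]
  have hg : Function.Injective g := by
    intro i j hij
    have h := congrArg Subtype.val hij
    fin_cases i <;> fin_cases j <;> simp [g] at h ⊢ <;> first
      | exact h01 h | exact h02 h | exact h03 h | exact h12 h | exact h13 h | exact h23 h
      | exact h01 h.symm | exact h02 h.symm | exact h03 h.symm | exact h12 h.symm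
      | exact h13 h.symm | exact h23 h.symm
  have := Nat.card_le_card_of_injective g hg
  simpa using this

end Pool.Agent.H43.CH2
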