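import Pool.Agent.H43.CH2.Crit
import Pool.Agent.H43.CH2.Sharp

/-!
# MP_aaa807_co: graphs of maximum degree 4 whose vertices of degree at most 3 are dominating

The chromon of `v` under `c` is the set of the vertices `w` which can be reached from `v` by a walk all of
whose vertices have the colour of `v`.

Definitions (file `Pool/Agent/H43/CH2/Core.lean`, `Crit.lean`):
`same G c v` is the number of neighbours of `v` which have the colour of `v`;
`mono G c` is the sum of the `same G c v`, which is twice the number of monochromatic edges;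
`MinMono G c`: no two-colouring has fewer monochromatic edges than `c`;
`flip c x` is `c` with the colour of `x` changed;
`Family G F`: `F` is a nonempty set of two-colourings with the fewest monochromatic edges, and with `c` it
contains all `flip c x` with `same G c x = 2`;
`Rigid G F v`: `same G c v ≤ 1` for all `c` in `F`.
-/

set_option autoImplicit false

namespace Pool.Agent.H43.CH2.LowDominatedJoined

open Pool.Agent.H43.CH2
open scoped Classical

theorem degree_eq {V : Type} [Fintype V] (G : SimpleGraph V) [DecidableRel G.Adj] (v : V) :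
    dH G v = G.degree v := by
  rw [← SimpleGraph.card_neighborFinset_eq_degree]
  unfold dH
  congr 1
  ext w
  simp

/-- (1) If every vertex of degree 4 has a neighbour of degree at most 3, then there is a two-colouring all
of whose chromons have at most 4 vertices. (2) There is a graph with this property, with 10 vertices, all
of whose two-colourings have a chromon with at least 4 vertices. (3) If there is a function `f` such that
`f v ≠ f w` for all adjacent `v, w` of degree 4 all of whose neighbours have degree 4, then there is a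
two-colouring all of whose chromons have at most 5 vertices. (4) The criteria for an arbitrary family of
two-colourings with the fewest monochromatic edges. (5) Vertices of degree at most 3 are rigid in every
family, and the set of all two-colourings with the fewest monochromatic edges is a family. -/
theorem result :
    (∀ (V : Type) [Fintype V] (G : SimpleGraph V) [DecidableRel G.Adj], (∀ v, G.degree v ≤ 4) →
      (∀ v, G.degree v = 4 → ∃ w, G.Adj v w ∧ G.degree w ≤ 3) →
      ∃ c : V → Bool, ∀ v, Nat.card {w // ∃ p : G.Walk v w, ∀ x ∈ p.support, c x = c v} ≤ 4) ∧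
    (∃ (G : SimpleGraph (Fin 10)) (_ : DecidableRel G.Adj), (∀ v, G.degree v ≤ 4) ∧
      (∀ v, G.degree v = 4 → ∃ w, G.Adj v w ∧ G.degree w ≤ 3) ∧
      ∀ c : Fin 10 → Bool, ∃ v,
        4 ≤ Nat.card {w // ∃ p : G.Walk v w, ∀ x ∈ p.support, c x = c v}) ∧
    (∀ (V : Type) [Fintype V] (G : SimpleGraph V) [DecidableRel G.Adj], (∀ v, G.degree v ≤ 4) →
      ∀ f : V → Bool,
      (∀ v w, G.Adj v w → G.degree v = 4 → G.degree w = 4 → (∀ u, G.Adj v u → G.degree u = 4) →
        (∀ u, G.Adj w u → G.degree u = 4) → f v ≠ f w) →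
      ∃ c : V → Bool, ∀ v, Nat.card {w // ∃ p : G.Walk v w, ∀ x ∈ p.support, c x = c v} ≤ 5) ∧
    (∀ (V : Type) [Fintype V] (G : SimpleGraph V) [DecidableRel G.Adj], (∀ v, G.degree v ≤ 4) →
      ∀ F : Set (V → Bool), Family G F →
      ∀ (N : Set V) (f : V → Bool), (∀ v ∈ N, ∃ w, G.Adj v w ∧ Rigid G F w) →
      ((∀ a x y b, G.Adj a x → G.Adj x y → G.Adj y b → a ≠ y → x ≠ b → a ≠ b → ¬ G.Adj a y →
          ¬ G.Adj x b → ¬ G.Adj a b → ¬ Rigid G F a → ¬ Rigid G F x → ¬ Rigid G F y →
          ¬ Rigid G F b → x ∉ N → y ∉ N → f x = f y → (a ∈ N ∨ f a = f x) →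
          (b ∈ N ∨ f b = f x) → False) →
        ∃ c ∈ F, ∀ v, Nat.card {w // ∃ p : G.Walk v w, ∀ x ∈ p.support, c x = c v} ≤ 5) ∧
      ((∀ a x b, G.Adj a x → G.Adj x b → a ≠ b → ¬ G.Adj a b →
          ¬ Rigid G F a → ¬ Rigid G F x → ¬ Rigid G F b → x ∉ N → (a ∈ N ∨ f a = f x) →
          (b ∈ N ∨ f b = f x) → False) →
        ∃ c ∈ F, ∀ v, Nat.card {w // ∃ p : G.Walk v w, ∀ x ∈ p.support, c x = c v} ≤ 4)) ∧
    (∀ (V : Type) [Fintype V] (G : SimpleGraph V) [DecidableRel G.Adj], (∀ v, G.degree v ≤ 4) →
      Family G {c | MinMono G c} ∧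
      ∀ F : Set (V → Bool), Family G F → ∀ v, G.degree v ≤ 3 → Rigid G F v) := by
  refine ⟨?_, ⟨exG, inferInstance, ex_deg, ex_low, ex_not3⟩, ?_, ?_, ?_⟩
  · intro V _ G _ hd hlow
    have hd' : ∀ v, dH G v ≤ 4 := fun v => by
      rw [degree_eq]; exact hd v
    have hF := family_all G hd'
    have hr : ∀ v, G.degree v ≤ 3 → Rigid G {c | MinMono G c} v := fun v hv =>
      rigid_of_degree G hF (le_of_eq_of_le (degree_eq G v) hv)
    obtain ⟨c, -, hc⟩ := criterion4 G hd' hF (N := {v | ∃ w, G.Adj v w ∧ G.degree w ≤ 3})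
      (fun v ⟨w, hw, h3⟩ => ⟨w, hw, hr w h3⟩) (fun _ => true)
      (fun a x b _ _ _ _ _ hx _ hxN _ _ => by
        apply hxN
        by_contra hcon
        apply hx
        apply hr
        have h4 : G.degree x ≠ 4 := fun h => hcon (hlow x h)
        have := hd x
        omega)
    exact ⟨c, hc⟩
  · intro V _ G _ hd f hf
    have hd' : ∀ v, dH G v ≤ 4 := fun v => by
      rw [degree_eq]; exact hd v
    have hF := family_all G hd'
    have hr : ∀ v, G.degree v ≤ 3 → Rigid G {c | MinMono G c} v := fun v hv =>
      rigid_of_degree G hF (le_of_eq_of_le (degree_eq G v) hv)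
    have h4 : ∀ v, ¬ Rigid G {c | MinMono G c} v → G.degree v = 4 := by
      intro v hv
      by_contra h
      apply hv
      apply hr
      have := hd v
      omega
    have h4' : ∀ v, v ∉ {v | ∃ w, G.Adj v w ∧ G.degree w ≤ 3} → ∀ u, G.Adj v u →
        G.degree u = 4 := by
      intro v hv u hu
      by_contra h
      apply hv
      refine ⟨u, hu, ?_⟩
      have := hd u
      omega
    obtain ⟨c, -, hc⟩ := criterion5 G hd' hF (N := {v | ∃ w, G.Adj v w ∧ G.degree w ≤ 3})
      (fun v ⟨w, hw, h3⟩ => ⟨w, hw, hr w h3⟩) f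
      (fun a x y b _ hxy _ _ _ _ _ _ _ _ hx hy _ hxN hyN hfxy _ _ =>
        hf x y hxy (h4 x hx) (h4 y hy) (h4' x hxN) (h4' y hyN) hfxy)
    exact ⟨c, hc⟩
  · intro V _ G _ hd F hF N f hN
    have hd' : ∀ v, dH G v ≤ 4 := fun v => by
      rw [degree_eq]; exact hd v
    exact ⟨criterion5 G hd' hF hN f, criterion4 G hd' hF hN f⟩
  · intro V _ G _ hd
    have hd' : ∀ v, dH G v ≤ 4 := fun v => by
      rw [degree_eq]; exact hd v
    exact ⟨family_all G hd', fun F hF v hv =>
      rigid_of_degree G hF (le_of_eq_of_le (degree_eq G v) hv)⟩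

end Pool.Agent.H43.CH2.LowDominatedJoined
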