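import Pool.Agent.H43.CH2.Core

/-!
Graphs of maximum degree at most 2: components of at most 4, respectively 5, vertices.
-/

set_option autoImplicit false
set_option linter.unusedSectionVars false

namespace Pool.Agent.H43.CH2

open Finset
open scoped Classical

variable {V : Type} [Fintype V]

/-- degree -/
noncomputable def dH (H : SimpleGraph V) (v : V) : ℕ := (univ.filter (fun w => H.Adj v w)).card

variable {H : SimpleGraph V}

theorem dH_one {a x y : V} (h : dH H a ≤ 1) (hx : H.Adj a x) (hy : H.Adj a y) : y = x := by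
  refine card_le_one.1 h y ?_ x ?_ <;> simp [*]

theorem dH_two {x : V} (h : dH H x = 2) : ∃ a b, a ≠ b ∧ H.Adj x a ∧ H.Adj x b ∧
    ∀ y, H.Adj x y → y = a ∨ y = b := by
  obtain ⟨a, b, hab, hs⟩ := card_eq_two.1 h
  have ha : a ∈ univ.filter (fun w => H.Adj x w) := by rw [hs]; simp
  have hb : b ∈ univ.filter (fun w => H.Adj x w) := by rw [hs]; simp
  simp only [mem_filter, mem_univ, true_and] at ha hb
  refine ⟨a, b, hab, ha, hb, fun y hy => ?_⟩
  have : y ∈ univ.filter (fun w => H.Adj x w) := by simp [hy]
  rw [hs] at this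
  simpa using this

theorem dH_other {x a : V} (h : dH H x = 2) (ha : H.Adj x a) : ∃ b, b ≠ a ∧ H.Adj x b ∧
    ∀ y, H.Adj x y → y = a ∨ y = b := by
  obtain ⟨p, q, hpq, hp, hq, hall⟩ := dH_two h
  rcases hall a ha with rfl | rfl
  · exact ⟨q, hpq.symm, hq, hall⟩
  · exact ⟨p, hpq, hp, fun y hy => (hall y hy).symm⟩

theorem dH_two_of {x a b : V} (h : dH H x ≤ 2) (hab : a ≠ b) (ha : H.Adj x a) (hb : H.Adj x b) :
    ∀ y, H.Adj x y → y = a ∨ y = b := by
  intro y hy
  by_contra hcon
  push Not at hcon
  have h1 : ({a, b, y} : Finset V) ⊆ univ.filter (fun w => H.Adj x w) := by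
    intro z hz
    simp only [mem_insert, mem_singleton] at hz
    rcases hz with rfl | rfl | rfl <;> simp [*]
  have h2 := card_le_card h1
  have h3 : ({a, b, y} : Finset V).card = 3 := by
    rw [card_insert_of_notMem (by simp [hab, Ne.symm hcon.1]), card_pair (Ne.symm hcon.2)]
  unfold dH at h
  omega

theorem dH_ge_two {x a b : V} (hab : a ≠ b) (ha : H.Adj x a) (hb : H.Adj x b) : 2 ≤ dH H x := by
  have h1 : ({a, b} : Finset V) ⊆ univ.filter (fun w => H.Adj x w) := by
    intro z hz
    simp only [mem_insert, mem_singleton] at hz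
    rcases hz with rfl | rfl <;> simp [*]
  have h2 := card_le_card h1
  rwa [card_pair hab] at h2

/-- `T` is a union of components of `H` -/
def Cl (H : SimpleGraph V) (T : Finset V) : Prop := ∀ x ∈ T, ∀ y, H.Adj x y → y ∈ T

/-- a set closed under adjacency around a vertex `x` can be used for all neighbours of `x` -/
theorem extend {k : ℕ} (hk : 2 ≤ k)
    (h : ∀ x, dH H x = 2 → ∃ T : Finset V, x ∈ T ∧ Cl H T ∧ T.card ≤ k) (h2 : ∀ v, dH H v ≤ 2)
    (v : V) : ∃ T : Finset V, v ∈ T ∧ Cl H T ∧ T.card ≤ k := by
  by_cases hv : dH H v = 2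
  · exact h v hv
  · by_cases he : ∃ a, H.Adj v a
    · obtain ⟨a, ha⟩ := he
      by_cases ha2 : dH H a = 2
      · obtain ⟨T, hT, hC, hc⟩ := h a ha2
        exact ⟨T, hC a hT v ha.symm, hC, hc⟩
      · refine ⟨{v, a}, by simp, ?_, ?_⟩
        · intro z hz y hy
          simp only [mem_insert, mem_singleton] at hz ⊢
          rcases hz with rfl | rfl
          · exact Or.inr (dH_one (by have := h2 z; omega) ha hy)
          · exact Or.inl (dH_one (by have := h2 z; omega) ha.symm hy)
        · exact le_trans (card_le_two) hk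
    · refine ⟨{v}, by simp, ?_, by simp; omega⟩
      intro z hz y hy
      rw [mem_singleton] at hz
      subst hz
      exact absurd ⟨y, hy⟩ he

theorem card3 (x a b : V) : ({x, a, b} : Finset V).card ≤ 3 := card_le_three
theorem card4 (x a b d : V) : ({x, a, b, d} : Finset V).card ≤ 4 := card_le_four
theorem card5 (x a b d e : V) : ({x, a, b, d, e} : Finset V).card ≤ 5 := card_le_five

/-- an end on one side of the vertex `x` -/
theorem arm4 (h2 : ∀ v, dH H v ≤ 2)
    (h : ∀ a x b, H.Adj a x → H.Adj x b → a ≠ b → ¬ H.Adj a b → dH H a = 2 → dH H x = 2 →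
      dH H b = 2 → False)
    {x a b : V} (hx : dH H x = 2) (hab : a ≠ b) (ha : H.Adj x a) (hb : H.Adj x b)
    (hall : ∀ y, H.Adj x y → y = a ∨ y = b) (ha1 : dH H a ≤ 1) :
    ∃ T : Finset V, x ∈ T ∧ Cl H T ∧ T.card ≤ 4 := by
  have hna : ∀ y, H.Adj a y → y = x := fun y hy => dH_one ha1 ha.symm hy
  by_cases hb2 : dH H b = 2
  · obtain ⟨d, hdx, hd, hball⟩ := dH_other hb2 hb.symm
    have hda : d ≠ a := by
      rintro rfl
      exact hb.ne' (hna b hd.symm)
    by_cases hd2 : dH H d = 2
    · exfalso
      refine h x b d hb hd hdx.symm ?_ hx hb2 hd2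
      intro hxd
      rcases hall d hxd with h1 | h1
      · exact hda h1
      · exact hd.ne h1.symm
    · have hnd : ∀ y, H.Adj d y → y = b := fun y hy =>
        dH_one (by have := h2 d; omega) hd.symm hy
      refine ⟨{x, a, b, d}, by simp, ?_, card4 _ _ _ _⟩
      intro z hz y hy
      simp only [mem_insert, mem_singleton] at hz ⊢
      rcases hz with rfl | rfl | rfl | rfl
      · have := hall y hy; tauto
      · have := hna y hy; tauto
      · have := hball y hy; tauto
      · have := hnd y hy; tauto
  · have hnb : ∀ y, H.Adj b y → y = x := fun y hy =>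
      dH_one (by have := h2 b; omega) hb.symm hy
    refine ⟨{x, a, b}, by simp, ?_, le_trans (card3 _ _ _) (by norm_num)⟩
    intro z hz y hy
    simp only [mem_insert, mem_singleton] at hz ⊢
    rcases hz with rfl | rfl | rfl
    · have := hall y hy; tauto
    · have := hna y hy; tauto
    · have := hnb y hy; tauto

theorem triangle_cl (h2 : ∀ v, dH H v ≤ 2) {x a b : V} (hab : a ≠ b) (ha : H.Adj x a)
    (hb : H.Adj x b) (h : H.Adj a b) : Cl H {x, a, b} := by
  intro z hz y hy
  simp only [mem_insert, mem_singleton] at hz ⊢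
  rcases hz with rfl | rfl | rfl
  · have := dH_two_of (h2 _) hab ha hb y hy; tauto
  · have := dH_two_of (h2 _) hb.ne ha.symm h y hy; tauto
  · have := dH_two_of (h2 _) ha.ne hb.symm h.symm y hy; tauto

/-- components of at most four vertices -/
theorem comp4 (h2 : ∀ v, dH H v ≤ 2)
    (h : ∀ a x b, H.Adj a x → H.Adj x b → a ≠ b → ¬ H.Adj a b → dH H a = 2 → dH H x = 2 →
      dH H b = 2 → False) (v : V) : ∃ T : Finset V, v ∈ T ∧ Cl H T ∧ T.card ≤ 4 := by
  refine extend (by norm_num) (fun x hx => ?_) h2 v
  obtain ⟨a, b, hab, ha, hb, hall⟩ := dH_two hx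
  by_cases ha2 : dH H a = 2
  · by_cases hb2 : dH H b = 2
    · by_cases hadj : H.Adj a b
      · exact ⟨{x, a, b}, by simp, triangle_cl h2 hab ha hb hadj,
          le_trans (card3 _ _ _) (by norm_num)⟩
      · exact absurd (h a x b ha.symm hb hab hadj ha2 hx hb2) id
    · exact arm4 h2 h hx hab.symm hb ha (fun y hy => (hall y hy).symm)
        (by have := h2 b; omega)
  · exact arm4 h2 h hx hab ha hb hall (by have := h2 a; omega)

/-- four consecutive vertices of degree 2 on an induced path -/
def Four (H : SimpleGraph V) : Prop :=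
  ∃ a x y b, H.Adj a x ∧ H.Adj x y ∧ H.Adj y b ∧ a ≠ y ∧ x ≠ b ∧ a ≠ b ∧ ¬ H.Adj a y ∧
    ¬ H.Adj x b ∧ ¬ H.Adj a b ∧ dH H a = 2 ∧ dH H x = 2 ∧ dH H y = 2 ∧ dH H b = 2

theorem arm5 (h2 : ∀ v, dH H v ≤ 2) (h : ¬ Four H)
    {x a b : V} (hx : dH H x = 2) (hab : a ≠ b) (ha : H.Adj x a) (hb : H.Adj x b)
    (hall : ∀ y, H.Adj x y → y = a ∨ y = b) (ha1 : dH H a ≤ 1) :
    ∃ T : Finset V, x ∈ T ∧ Cl H T ∧ T.card ≤ 5 := by
  have hna : ∀ y, H.Adj a y → y = x := fun y hy => dH_one ha1 ha.symm hy
  by_cases hb2 : dH H b = 2
  · obtain ⟨d, hdx, hd, hball⟩ := dH_other hb2 hb.symm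
    have hda : d ≠ a := by
      rintro rfl
      exact hb.ne' (hna b hd.symm)
    have hxd : ¬ H.Adj x d := by
      intro hxd
      rcases hall d hxd with h1 | h1
      · exact hda h1
      · exact hd.ne h1.symm
    by_cases hd2 : dH H d = 2
    · obtain ⟨e, heb, he, hdall⟩ := dH_other hd2 hd.symm
      have hex : e ≠ x := by
        rintro rfl
        exact hxd he.symm
      have hea : e ≠ a := by
        rintro rfl
        exact hdx (hna d he.symm)
      by_cases he2 : dH H e = 2
      · exfalso
        refine h ⟨x, b, d, e, hb, hd, he, hdx.symm, heb.symm, hex.symm, hxd, ?_, ?_, hx, hb2,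
          hd2, he2⟩
        · intro hbe
          rcases hball e hbe with h1 | h1
          · exact hex h1
          · exact he.ne h1.symm
        · intro hxe
          rcases hall e hxe with h1 | h1
          · exact hea h1
          · exact heb h1
      · have hne : ∀ y, H.Adj e y → y = d := fun y hy =>
          dH_one (by have := h2 e; omega) he.symm hy
        refine ⟨{x, a, b, d, e}, by simp, ?_, card5 _ _ _ _ _⟩
        intro z hz y hy
        simp only [mem_insert, mem_singleton] at hz ⊢
        rcases hz with rfl | rfl | rfl | rfl | rfl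
        · have := hall y hy; tauto
        · have := hna y hy; tauto
        · have := hball y hy; tauto
        · have := hdall y hy; tauto
        · have := hne y hy; tauto
    · have hnd : ∀ y, H.Adj d y → y = b := fun y hy =>
        dH_one (by have := h2 d; omega) hd.symm hy
      refine ⟨{x, a, b, d}, by simp, ?_, le_trans (card4 _ _ _ _) (by norm_num)⟩
      intro z hz y hy
      simp only [mem_insert, mem_singleton] at hz ⊢
      rcases hz with rfl | rfl | rfl | rfl
      · have := hall y hy; tauto
      · have := hna y hy; tauto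
      · have := hball y hy; tauto
      · have := hnd y hy; tauto
  · have hnb : ∀ y, H.Adj b y → y = x := fun y hy =>
      dH_one (by have := h2 b; omega) hb.symm hy
    refine ⟨{x, a, b}, by simp, ?_, le_trans (card3 _ _ _) (by norm_num)⟩
    intro z hz y hy
    simp only [mem_insert, mem_singleton] at hz ⊢
    rcases hz with rfl | rfl | rfl
    · have := hall y hy; tauto
    · have := hna y hy; tauto
    · have := hnb y hy; tauto

/-- components of at most five vertices -/
theorem comp5 (h2 : ∀ v, dH H v ≤ 2) (h : ¬ Four H) (v : V) :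
    ∃ T : Finset V, v ∈ T ∧ Cl H T ∧ T.card ≤ 5 := by
  refine extend (by norm_num) (fun x hx => ?_) h2 v
  obtain ⟨a, b, hab, ha, hb, hall⟩ := dH_two hx
  by_cases ha2 : dH H a = 2
  · by_cases hb2 : dH H b = 2
    · by_cases hadj : H.Adj a b
      · exact ⟨{x, a, b}, by simp, triangle_cl h2 hab ha hb hadj,
          le_trans (card3 _ _ _) (by norm_num)⟩
      · obtain ⟨p, hpx, hp, haall⟩ := dH_other ha2 ha.symm
        obtain ⟨q, hqx, hq, hball⟩ := dH_other hb2 hb.symm
        have hpb : p ≠ b := by rintro rfl; exact hadj hp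
        have hqa : q ≠ a := by rintro rfl; exact hadj hq.symm
        have hxp : ¬ H.Adj x p := by
          intro h1
          rcases hall p h1 with h3 | h3
          · exact hp.ne h3.symm
          · exact hpb h3
        have hxq : ¬ H.Adj x q := by
          intro h1
          rcases hall q h1 with h3 | h3
          · exact hqa h3
          · exact hq.ne h3.symm
        by_cases hpq : p = q
        · subst hpq
          refine ⟨{x, a, b, p}, by simp, ?_, le_trans (card4 _ _ _ _) (by norm_num)⟩
          intro z hz y hy
          simp only [mem_insert, mem_singleton] at hz ⊢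
          rcases hz with rfl | rfl | rfl | rfl
          · have := hall y hy; tauto
          · have := haall y hy; tauto
          · have := hball y hy; tauto
          · have := dH_two_of (h2 _) hab hp.symm hq.symm y hy; tauto
        · have hp1 : dH H p ≠ 2 := by
            intro hp2
            refine h ⟨p, a, x, b, hp.symm, ha.symm, hb, hpx, hab, hpb, fun h1 => hxp h1.symm,
              hadj, ?_, hp2, ha2, hx, hb2⟩
            intro h1
            rcases hball p h1.symm with h3 | h3
            · exact hpx h3
            · exact hpq h3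
          have hq1 : dH H q ≠ 2 := by
            intro hq2
            refine h ⟨a, x, b, q, ha.symm, hb, hq, hab, hqx.symm, hqa.symm, hadj, hxq, ?_, ha2,
              hx, hb2, hq2⟩
            intro h1
            rcases haall q h1 with h3 | h3
            · exact hqx h3
            · exact hpq h3.symm
          have hnp : ∀ y, H.Adj p y → y = a := fun y hy =>
            dH_one (by have := h2 p; omega) hp.symm hy
          have hnq : ∀ y, H.Adj q y → y = b := fun y hy =>
            dH_one (by have := h2 q; omega) hq.symm hy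
          refine ⟨{x, a, b, p, q}, by simp, ?_, card5 _ _ _ _ _⟩
          intro z hz y hy
          simp only [mem_insert, mem_singleton] at hz ⊢
          rcases hz with rfl | rfl | rfl | rfl | rfl
          · have := hall y hy; tauto
          · have := haall y hy; tauto
          · have := hball y hy; tauto
          · have := hnp y hy; tauto
          · have := hnq y hy; tauto
    · exact arm5 h2 h hx hab.symm hb ha (fun y hy => (hall y hy).symm)
        (by have := h2 b; omega)
  · exact arm5 h2 h hx hab ha hb hall (by have := h2 a; omega)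

end Pool.Agent.H43.CH2
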